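import Mathlib

namespace Pool.Agent.H.MP_bd3523_gt

open Set Filter Topology Metric

def Good (f : ℂ → ℂ) : Prop :=
  ∀ p, ∃ A : ℂ →L[ℝ] ℂ, Function.Injective A ∧ ∀ ε > 0, ∃ δ > 0, ∀ z ∈ ball p δ, ∀ w ∈ ball p δ,
    ∃ l : ℝ, 1 / 2 ≤ l ∧ l ≤ 2 ∧ ‖f z - f w - l • A (z - w)‖ ≤ ε * ‖z - w‖

def Ch (β : ℝ → ℂ) (s : ℝ) (v : ℂ) : Prop :=
  ∀ ε > 0, ∃ δ > 0, ∀ a ∈ ball s δ, ∀ b ∈ ball s δ,
    ∃ l : ℝ, 1 / 2 ≤ l ∧ l ≤ 2 ∧ ‖β a - β b - (l * (a - b)) • v‖ ≤ ε * |a - b|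

lemma strict_iff (γ : ℝ → ℂ) (g : ℂ) (s : ℝ) : HasStrictDerivAt γ g s ↔
    ∀ ε > 0, ∃ δ > 0, ∀ a ∈ ball s δ, ∀ b ∈ ball s δ, ‖γ a - γ b - (a - b) • g‖ ≤ ε * |a - b| := by
  rw [hasStrictDerivAt_iff_hasStrictFDerivAt, hasStrictFDerivAt_iff_isLittleO,
    Asymptotics.isLittleO_iff]
  constructor
  · intro h ε hε
    obtain ⟨δ, hδ, h2⟩ := Metric.eventually_nhds_iff_ball.1 (h hε)
    refine ⟨δ, hδ, fun a ha b hb => ?_⟩
    have := h2 (a, b) (by rw [← ball_prod_same]; exact ⟨ha, hb⟩)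
    simpa using this
  · intro h ε hε
    obtain ⟨δ, hδ, h2⟩ := h ε hε
    refine Metric.eventually_nhds_iff_ball.2 ⟨δ, hδ, fun p hp => ?_⟩
    rw [← ball_prod_same] at hp
    simpa using h2 p.1 hp.1 p.2 hp.2

lemma ch_comp (f : ℂ → ℂ) (hf : Good f) (γ : ℝ → ℂ) (g : ℂ) (s : ℝ) (hγ : HasStrictDerivAt γ g s)
    (hg : g ≠ 0) : ∃ v ≠ 0, Ch (f ∘ γ) s v := by
  obtain ⟨A, hA, h⟩ := hf (γ s)
  refine ⟨A g, fun h0 => hg (hA (by rw [h0, map_zero])), fun ε hε => ?_⟩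
  have c1 : 0 < ε / (2 * (‖g‖ + 1)) := by positivity
  have c2 : 0 < min 1 (ε / (4 * (‖A‖ + 1))) := by positivity
  obtain ⟨δ1, hδ1, h1⟩ := h _ c1
  obtain ⟨δ2, hδ2, h2⟩ := (strict_iff _ _ _).1 hγ _ c2
  obtain ⟨δ3, hδ3, h3⟩ := Metric.continuousAt_iff.1 hγ.hasDerivAt.continuousAt δ1 hδ1
  refine ⟨min δ2 δ3, lt_min hδ2 hδ3, fun a ha b hb => ?_⟩
  rw [mem_ball, lt_min_iff] at ha hb
  obtain ⟨l, l1, l2, h4⟩ := h1 (γ a) (h3 ha.2) (γ b) (h3 hb.2)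
  have h5 := h2 a ha.1 b hb.1
  refine ⟨l, l1, l2, ?_⟩
  have e : (f ∘ γ) a - (f ∘ γ) b - (l * (a - b)) • A g
      = (f (γ a) - f (γ b) - l • A (γ a - γ b)) + l • A (γ a - γ b - (a - b) • g) := by
    simp only [Function.comp, map_sub, map_smul, smul_sub, smul_smul]
    abel
  have h6 : ‖γ a - γ b‖ ≤ (‖g‖ + 1) * |a - b| := by
    have : γ a - γ b = (a - b) • g + (γ a - γ b - (a - b) • g) := by abel
    rw [this]
    refine (norm_add_le _ _).trans ?_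
    rw [norm_smul, Real.norm_eq_abs]
    have := mul_le_mul_of_nonneg_right (min_le_left 1 (ε / (4 * (‖A‖ + 1)))) (abs_nonneg (a - b))
    nlinarith
  have h7 : ‖l • A (γ a - γ b - (a - b) • g)‖ ≤ ε / 2 * |a - b| := by
    rw [norm_smul, Real.norm_of_nonneg (by linarith)]
    have h8 := A.le_opNorm (γ a - γ b - (a - b) • g)
    have h9 := mul_le_mul_of_nonneg_right (min_le_right 1 (ε / (4 * (‖A‖ + 1)))) (abs_nonneg (a - b))
    have h10 : (‖A‖ + 1) * (ε / (4 * (‖A‖ + 1)) * |a - b|) = ε / 4 * |a - b| := by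
      field_simp
    have h11 : ‖A (γ a - γ b - (a - b) • g)‖ ≤ ε / 4 * |a - b| := by
      rw [← h10]
      refine h8.trans (mul_le_mul (by linarith) (h5.trans h9) (norm_nonneg _) (by positivity))
    nlinarith [norm_nonneg (A (γ a - γ b - (a - b) • g))]
  rw [e]
  refine (norm_add_le _ _).trans ?_
  have h12 : ε / (2 * (‖g‖ + 1)) * ((‖g‖ + 1) * |a - b|) = ε / 2 * |a - b| := by field_simp
  have h13 := mul_le_mul_of_nonneg_left h6 c1.le
  linarith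

lemma c1_of_strict (δ : ℝ → ℂ) (x : ℝ) (h : ∀ᶠ y in 𝓝 x, ∃ d, HasStrictDerivAt δ d y) :
    ContDiffAt ℝ 1 δ x := by
  obtain ⟨U, hU, hUo, hx⟩ := _root_.eventually_nhds_iff.1 h
  have hs : ∀ y ∈ U, HasStrictDerivAt δ (deriv δ y) y := fun y hy => by
    obtain ⟨d, hd⟩ := hU y hy
    rw [hd.hasDerivAt.deriv]
    exact hd
  have : ContDiffOn ℝ 1 δ U := by
    rw [contDiffOn_one_iff_derivWithin hUo.uniqueDiffOn]
    refine ⟨fun y hy => (hs y hy).hasDerivAt.differentiableAt.differentiableWithinAt, ?_⟩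
    refine ContinuousOn.congr (f := deriv δ) ?_ fun y hy => derivWithin_of_isOpen hUo hy
    intro y hy
    rw [Metric.continuousWithinAt_iff]
    intro ε hε
    obtain ⟨r, hr, h1⟩ := (strict_iff _ _ _).1 (hs y hy) (ε / 2) (by positivity)
    refine ⟨r, hr, fun z hz hzy => ?_⟩
    have h2 : HasDerivAt (fun a => δ a - a • deriv δ y) (deriv δ z - deriv δ y) z := by
      have := (hs z hz).hasDerivAt.sub ((hasDerivAt_id z).smul_const (deriv δ y))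
      refine HasDerivAt.congr_deriv this ?_
      rw [one_smul]
    have h3 := h2.le_of_lip' (C := ε / 2) (by positivity) (by
      filter_upwards [isOpen_ball.mem_nhds (mem_ball.2 hzy)] with a ha
      have := h1 a ha z hzy
      rw [Real.norm_eq_abs]
      refine le_of_eq_of_le ?_ this
      congr 1
      rw [sub_smul]
      abel)
    rw [dist_eq_norm]
    linarith
  exact this.contDiffAt (hUo.mem_nhds hx)

lemma reparam (β : ℝ → ℂ) (t : ℝ) (h : ∀ᶠ s in 𝓝 t, ∃ v ≠ 0, Ch β s v) :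
    ∃ δ : ℝ → ℂ, ∃ x : ℝ, ContDiffAt ℝ 1 δ x ∧ deriv δ x ≠ 0 ∧ δ x = β t ∧
      map δ (𝓝 x) = map β (𝓝 t) := by
  obtain ⟨v0, hv0, h0⟩ := h.self_of_nhds
  obtain ⟨ℓ, hℓ⟩ : ∃ ℓ : ℂ →L[ℝ] ℝ, ℓ v0 = 1 := by
    refine ⟨(‖v0‖ ^ 2)⁻¹ • innerSL ℝ v0, ?_⟩
    have : ‖v0‖ ≠ 0 := norm_ne_zero_iff.2 hv0
    simp only [smul_apply, innerSL_apply_apply, real_inner_self_eq_norm_sq, smul_eq_mul]
    field_simp
  obtain ⟨r, hr, h1⟩ := h0 (1 / (8 * (‖ℓ‖ + 1))) (by positivity)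
  have h2 : ∀ a ∈ ball t r, ∀ b ∈ ball t r,
      |ℓ (β a) - ℓ (β b) - 5 / 4 * (a - b)| ≤ 7 / 8 * |a - b| := by
    intro a ha b hb
    obtain ⟨l, l1, l2, h3⟩ := h1 a ha b hb
    have h4 := ℓ.le_opNorm (β a - β b - (l * (a - b)) • v0)
    rw [map_sub, map_sub, map_smul, hℓ, smul_eq_mul, mul_one, Real.norm_eq_abs] at h4
    have h5 : (‖ℓ‖ + 1) * (1 / (8 * (‖ℓ‖ + 1)) * |a - b|) = 1 / 8 * |a - b| := by field_simp
    have h6 : |ℓ (β a) - ℓ (β b) - l * (a - b)| ≤ 1 / 8 * |a - b| := by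
      rw [← h5]
      exact h4.trans (mul_le_mul (by linarith) h3 (norm_nonneg _) (by positivity))
    have h7 : |(l - 5 / 4) * (a - b)| ≤ 3 / 4 * |a - b| := by
      rw [abs_mul]
      exact mul_le_mul_of_nonneg_right (abs_le.2 ⟨by linarith, by linarith⟩) (abs_nonneg _)
    have e : ℓ (β a) - ℓ (β b) - 5 / 4 * (a - b)
        = (ℓ (β a) - ℓ (β b) - l * (a - b)) + (l - 5 / 4) * (a - b) := by ring
    rw [e]
    linarith [abs_add_le (ℓ (β a) - ℓ (β b) - l * (a - b)) ((l - 5 / 4) * (a - b))]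
  have h3 : ∀ a ∈ ball t r, ∀ b ∈ ball t r, |a - b| ≤ 3 * |ℓ (β a) - ℓ (β b)| := by
    intro a ha b hb
    have h4 := h2 a ha b hb
    have h5 := abs_sub_abs_le_abs_sub (5 / 4 * (a - b)) (ℓ (β a) - ℓ (β b))
    rw [abs_sub_comm] at h4
    rw [abs_mul, abs_of_pos (by norm_num : (0 : ℝ) < 5 / 4)] at h5
    linarith [abs_nonneg (a - b)]
  let q : ℝ ≃L[ℝ] ℝ := ContinuousLinearEquiv.unitsEquivAut ℝ (Units.mk0 (5 / 4) (by norm_num))
  have hq : ∀ y, q y = 5 / 4 * y := fun y => by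
    simp [q, mul_comm]
  have hap : ApproximatesLinearOn (fun a => ℓ (β a)) (q : ℝ →L[ℝ] ℝ) (ball t r) (7 / 8) := by
    intro a ha b hb
    have := h2 a ha b hb
    simpa [hq] using this
  have hN : Subsingleton ℝ ∨ (7 / 8 : NNReal) < ‖(q.symm : ℝ →L[ℝ] ℝ)‖₊⁻¹ := by
    right
    have h4 : ‖(q.symm : ℝ →L[ℝ] ℝ)‖ ≤ 4 / 5 := by
      refine ContinuousLinearMap.opNorm_le_bound _ (by norm_num) fun y => ?_
      have h5 := hq (q.symm y)
      rw [q.apply_symm_apply] at h5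
      have h6 : q.symm y = 4 / 5 * y := by linarith
      simp [h6]
    have h5 : 0 < ‖(q.symm : ℝ →L[ℝ] ℝ)‖₊ := by
      rw [nnnorm_pos]
      intro h0
      have := congrArg (fun T : ℝ →L[ℝ] ℝ => T (q 1)) h0
      simp at this
    rw [lt_inv_comm₀ (by norm_num) h5, ← NNReal.coe_lt_coe]
    simp only [coe_nnnorm, NNReal.coe_inv, NNReal.coe_div, NNReal.coe_ofNat]
    linarith [show (4 / 5 : ℝ) < (7 / 8)⁻¹ by norm_num]
  let e := hap.toOpenPartialHomeomorph _ _ hN isOpen_ball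
  have es : e.source = ball t r := rfl
  have ea : ∀ a, e a = ℓ (β a) := fun a => rfl
  have ht : t ∈ e.source := mem_ball_self hr
  have hm : map e.symm (𝓝 (e t)) = 𝓝 t := e.symm_map_nhds_eq ht
  have key : ∀ y ∈ e.target, ∀ v ≠ 0, Ch β (e.symm y) v →
      ℓ v ≠ 0 ∧ HasStrictDerivAt (β ∘ e.symm) ((ℓ v)⁻¹ • v) y := by
    intro y hy v hv hc
    have hs := e.map_target hy
    have hv' : ℓ v ≠ 0 := by
      intro h0
      obtain ⟨ρ, hρ, h4⟩ := hc (1 / (6 * (‖ℓ‖ + 1))) (by positivity)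
      obtain ⟨ρ', hρ', h5⟩ := Metric.isOpen_iff.1 e.open_source _ hs
      set s := e.symm y
      have hm : 0 < min ρ ρ' := lt_min hρ hρ'
      have hb : s + min ρ ρ' / 2 ∈ ball s (min ρ ρ') := by
        rw [mem_ball, Real.dist_eq, add_sub_cancel_left, abs_of_pos (by positivity)]
        linarith
      obtain ⟨l, -, -, h6⟩ := h4 _ (ball_subset_ball (min_le_left _ _) hb) s (mem_ball_self hρ)
      have h7 := h3 _ (h5 (ball_subset_ball (min_le_right _ _) hb)) s hs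
      have h8 := ℓ.le_opNorm (β (s + min ρ ρ' / 2) - β s - (l * (s + min ρ ρ' / 2 - s)) • v)
      rw [map_sub, map_sub, map_smul, h0, smul_zero, sub_zero, Real.norm_eq_abs] at h8
      rw [add_sub_cancel_left, abs_of_pos (by positivity)] at h6 h7
      rw [add_sub_cancel_left] at h8
      have h9 : (‖ℓ‖ + 1) * (1 / (6 * (‖ℓ‖ + 1)) * (min ρ ρ' / 2)) = min ρ ρ' / 12 := by
        field_simp
        norm_num
      have h10 := h8.trans (mul_le_mul (by linarith : ‖ℓ‖ ≤ ‖ℓ‖ + 1) h6 (norm_nonneg _)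
        (by positivity))
      linarith
    refine ⟨hv', (strict_iff _ _ _).2 fun ε hε => ?_⟩
    set K := 1 + ‖ℓ‖ * ‖(ℓ v)⁻¹ • v‖ with hK
    have K0 : 0 < K := by positivity
    obtain ⟨ρ, hρ, h4⟩ := hc (ε / (3 * K)) (by positivity)
    obtain ⟨ρ', hρ', h5⟩ := Metric.isOpen_iff.1 e.open_target _ hy
    obtain ⟨ρ2, hρ2, h6⟩ := Metric.continuousAt_iff.1 (e.continuousAt_symm hy) ρ hρ
    refine ⟨min ρ' ρ2, lt_min hρ' hρ2, fun a ha b hb => ?_⟩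
    rw [mem_ball, lt_min_iff] at ha hb
    obtain ⟨l, -, -, h7⟩ := h4 _ (h6 ha.2) _ (h6 hb.2)
    have ha' := h5 ha.1
    have hb' := h5 hb.1
    have h8 := h3 _ (e.map_target ha') _ (e.map_target hb')
    have e1 : ℓ (β (e.symm a)) = a := e.right_inv ha'
    have e2 : ℓ (β (e.symm b)) = b := e.right_inv hb'
    rw [e1, e2] at h8
    set E := β (e.symm a) - β (e.symm b) - (l * (e.symm a - e.symm b)) • v with hE
    have e3 : ℓ E = a - b - l * (e.symm a - e.symm b) * ℓ v := by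
      rw [hE, map_sub, map_sub, map_smul, e1, e2, smul_eq_mul]
    have e4 : (β ∘ e.symm) a - (β ∘ e.symm) b - (a - b) • (ℓ v)⁻¹ • v
        = E - ℓ E • (ℓ v)⁻¹ • v := by
      rw [e3, hE, sub_smul (a - b), smul_smul (l * _ * _), mul_assoc, mul_inv_cancel₀ hv', mul_one]
      simp only [Function.comp]
      abel
    rw [e4]
    have h9 : ‖E - ℓ E • (ℓ v)⁻¹ • v‖ ≤ K * ‖E‖ := by
      refine (norm_sub_le _ _).trans ?_
      rw [norm_smul, hK]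
      nlinarith [ℓ.le_opNorm E, norm_nonneg ((ℓ v)⁻¹ • v)]
    have h10 : K * (ε / (3 * K) * (3 * |a - b|)) = ε * |a - b| := by field_simp
    rw [← h10]
    exact h9.trans (mul_le_mul_of_nonneg_left (h7.trans
      (mul_le_mul_of_nonneg_left h8 (by positivity))) K0.le)
  have h4 : ∀ᶠ y in 𝓝 (e t), ∃ v ≠ 0, Ch β (e.symm y) v := by
    rw [← hm] at h
    exact h
  refine ⟨β ∘ e.symm, e t, c1_of_strict _ _ ?_, ?_, ?_, ?_⟩
  · filter_upwards [h4, e.open_target.mem_nhds (e.map_source ht)] with y ⟨v, hv, hc⟩ hy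
    exact ⟨_, (key y hy v hv hc).2⟩
  · have := key _ (e.map_source ht) v0 hv0 (by rw [e.left_inv ht]; exact h0)
    rw [this.2.hasDerivAt.deriv]
    exact smul_ne_zero (inv_ne_zero this.1) hv0
  · simp [e.left_inv ht]
  · rw [← Filter.map_map, hm]

lemma image_local (f : ℂ ≃ₜ ℂ) (hf : Good f) (C : Set ℂ) (γ : ℝ → ℂ) (t : ℝ)
    (h1 : ContDiffAt ℝ 1 γ t) (h2 : deriv γ t ≠ 0) (h3 : map γ (𝓝 t) = 𝓝[C] (γ t)) :
    ∃ δ : ℝ → ℂ, ∃ x : ℝ, ContDiffAt ℝ 1 δ x ∧ deriv δ x ≠ 0 ∧ δ x = f (γ t) ∧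
      map δ (𝓝 x) = 𝓝[f '' C] (f (γ t)) := by
  have h4 : ContinuousAt (deriv γ) t := by
    have := (h1.derivWithin (m := 0) (by simp)).continuousAt
    simpa [derivWithin_univ] using this
  obtain ⟨δ, x, d1, d2, d3, d4⟩ := reparam (f ∘ γ) t (by
    filter_upwards [h1.eventually (by simp), h4.eventually_ne h2] with s hs hs'
    exact ch_comp f hf γ _ s (hs.hasStrictDerivAt (by simp)) hs')
  refine ⟨δ, x, d1, d2, d3, ?_⟩
  rw [d4, ← Filter.map_map, h3, f.isEmbedding.map_nhdsWithin_eq]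

lemma good_symm (f : ℂ ≃ₜ ℂ) (hf : Good f) (hK : ∀ z w, ‖z - w‖ ≤ 2 * ‖f z - f w‖) :
    Good f.symm := by
  intro p
  obtain ⟨A, hA, h⟩ := hf (f.symm p)
  let e : ℂ ≃L[ℝ] ℂ := (LinearEquiv.ofInjectiveEndo (A : ℂ →ₗ[ℝ] ℂ) hA).toContinuousLinearEquiv
  have he : ∀ z, e.symm (A z) = z := fun z => e.symm_apply_apply z
  set B : ℂ →L[ℝ] ℂ := (e.symm : ℂ ≃L[ℝ] ℂ).toContinuousLinearMap
  have hB : ∀ z, B (A z) = z := he
  refine ⟨B, e.symm.injective, fun ε hε => ?_⟩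
  obtain ⟨δ, hδ, h1⟩ := h (ε / (4 * (‖B‖ + 1))) (by positivity)
  obtain ⟨δ', hδ', h2⟩ := Metric.continuousAt_iff.1 (f.symm.continuous.continuousAt (x := p)) δ hδ
  refine ⟨δ', hδ', fun z hz w hw => ?_⟩
  obtain ⟨l, l1, l2, h3⟩ := h1 _ (h2 hz) _ (h2 hw)
  have h4 := hK (f.symm z) (f.symm w)
  simp only [f.apply_symm_apply] at h3 h4
  have l0 : 0 < l := by linarith
  have l3 : l⁻¹ ≤ 2 := by
    rw [inv_le_comm₀ l0 (by norm_num)]
    linarith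
  refine ⟨l⁻¹, by rw [le_inv_comm₀ (by norm_num) l0]; linarith, l3, ?_⟩
  have e1 : f.symm z - f.symm w - l⁻¹ • B (z - w)
      = -(l⁻¹ • B (z - w - l • A (f.symm z - f.symm w))) := by
    rw [map_sub B (z - w), map_smul, hB, smul_sub, smul_smul, inv_mul_cancel₀ l0.ne', one_smul]
    abel
  rw [e1, norm_neg, norm_smul, Real.norm_of_nonneg (by positivity)]
  have h5 := B.le_opNorm (z - w - l • A (f.symm z - f.symm w))
  have h6 : (‖B‖ + 1) * (ε / (4 * (‖B‖ + 1)) * (2 * ‖z - w‖)) = ε / 2 * ‖z - w‖ := by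
    field_simp
    norm_num
  have h7 : ‖B (z - w - l • A (f.symm z - f.symm w))‖ ≤ ε / 2 * ‖z - w‖ := by
    rw [← h6]
    exact h5.trans (mul_le_mul (by linarith) (h3.trans (mul_le_mul_of_nonneg_left h4
      (by positivity))) (norm_nonneg _) (by positivity))
  nlinarith [norm_nonneg (B (z - w - l • A (f.symm z - f.symm w)))]

end Pool.Agent.H.MP_bd3523_gt
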