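import Mathlib
import Pool.Agent.H.MP_bd3523_gt.A

namespace Pool.Agent.H.MP_bd3523_gt

open Set Filter Topology Metric

noncomputable def χ : ContDiffBump (0 : ℂ) := ⟨1, 2, one_pos, one_lt_two⟩

noncomputable def Ψ (z : ℂ) : ℂ := χ z • z

lemma Ψ_cd : ContDiff ℝ 1 Ψ := χ.contDiff.smul contDiff_id

lemma Ψ_in (z : ℂ) (h : ‖z‖ ≤ 1) : Ψ z = z := by
  rw [Ψ, χ.one_of_mem_closedBall (by simpa [χ] using h), one_smul]

lemma Ψ_out (z : ℂ) (h : 2 ≤ ‖z‖) : Ψ z = 0 := by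
  rw [Ψ, χ.zero_of_le_dist (by simpa [χ] using h), zero_smul]

lemma Ψ_le (z : ℂ) : ‖Ψ z‖ ≤ 2 := by
  rcases le_total 2 ‖z‖ with h | h
  · rw [Ψ_out z h]
    simp
  · rw [Ψ, norm_smul, Real.norm_of_nonneg χ.nonneg]
    nlinarith [χ.le_one (x := z), χ.nonneg (x := z), norm_nonneg z]

lemma Ψ_lip : ∃ L : ℝ, 0 ≤ L ∧ ∀ z w, ‖Ψ z - Ψ w‖ ≤ L * ‖z - w‖ := by
  obtain ⟨L, hL⟩ := ContDiff.lipschitzWith_of_hasCompactSupport (𝕂 := ℝ)
    (HasCompactSupport.intro (isCompact_closedBall (0 : ℂ) 2) fun z hz =>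
      Ψ_out z (by simp at hz; exact hz.le)) Ψ_cd (by simp)
  exact ⟨L, L.2, fun z w => by simpa [dist_eq_norm] using hL.dist_le_mul z w⟩

noncomputable def T (z : ℂ) : ℂ := if 0 ≤ z.re then 8 * z - 4 else 8 * z + 4

lemma T_ge (z : ℂ) : 8 * ‖z‖ - 4 ≤ ‖T z‖ := by
  have h1 : ‖(8 : ℂ) * z‖ = 8 * ‖z‖ := by simp
  have h2 : ‖(4 : ℂ)‖ = 4 := by simp
  unfold T
  split_ifs
  · linarith [norm_sub_norm_le (8 * z) 4]
  · have := norm_sub_norm_le (8 * z) (-4)
    rw [sub_neg_eq_add, norm_neg] at this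
    linarith

lemma T_out (z : ℂ) (h : 2 ≤ ‖z‖) : 2 ≤ ‖T z‖ := by linarith [T_ge z]

lemma near (z w : ℂ) (hz : ‖T z‖ ≤ 2) (h : ‖w - z‖ < 1 / 4) :
    ‖w‖ ≤ 1 ∧ (0 ≤ w.re ↔ 0 ≤ z.re) := by
  have h1 := (Complex.abs_re_le_norm (T z)).trans hz
  have h2 := (Complex.abs_re_le_norm (w - z)).trans_lt h
  rw [abs_le] at h1
  rw [abs_lt, Complex.sub_re] at h2
  have h3 : ‖z‖ ≤ 3 / 4 := by linarith [T_ge z]
  refine ⟨by linarith [norm_sub_norm_le w z], ?_⟩
  unfold T at h1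
  split_ifs at h1 with h6
  · simp at h1
    exact ⟨fun _ => h6, fun _ => by linarith⟩
  · simp at h1
    exact ⟨fun _ => by linarith, fun h7 => absurd h7 h6⟩

lemma T_sub (z w : ℂ) (h : 0 ≤ w.re ↔ 0 ≤ z.re) : T z - T w = 8 * (z - w) := by
  unfold T
  by_cases h1 : 0 ≤ z.re
  · rw [if_pos h1, if_pos (h.2 h1)]
    ring
  · rw [if_neg h1, if_neg fun h2 => h1 (h.1 h2)]
    ring

noncomputable def F (a : ℕ → ℝ) (z : ℂ) : ℂ := ∑' k, (a k * (1 / 8) ^ k) • Ψ (T^[k] z)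

def Bd (a : ℕ → ℝ) (α : ℝ) : Prop := ∀ k, |a k| ≤ α

lemma Bd.shift {a : ℕ → ℝ} {α : ℝ} (h : Bd a α) : Bd (fun k => a (k + 1)) α := fun _ => h _

lemma Bd.nn {a : ℕ → ℝ} {α : ℝ} (h : Bd a α) : 0 ≤ α := (abs_nonneg _).trans (h 0)

lemma term_le {a : ℕ → ℝ} {α : ℝ} (h : Bd a α) (z : ℂ) (k : ℕ) :
    ‖(a k * (1 / 8) ^ k) • Ψ (T^[k] z)‖ ≤ 2 * α * (1 / 8) ^ k := by
  rw [norm_smul, Real.norm_eq_abs, abs_mul, abs_of_pos (by positivity : (0 : ℝ) < (1 / 8) ^ k)]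
  have h1 := mul_le_mul (h k) (Ψ_le (T^[k] z)) (norm_nonneg _) h.nn
  nlinarith [(by positivity : (0 : ℝ) < (1 / 8) ^ k)]

lemma geo (α : ℝ) : HasSum (fun k : ℕ => 2 * α * (1 / 8 : ℝ) ^ k) (2 * α * (1 - 1 / 8)⁻¹) :=
  (hasSum_geometric_of_lt_one (by norm_num) (by norm_num)).mul_left _

lemma F_le {a : ℕ → ℝ} {α : ℝ} (h : Bd a α) (z : ℂ) : ‖F a z‖ ≤ 3 * α := by
  have := tsum_of_norm_bounded (geo α) (term_le h z)
  have h0 := h.nn
  refine this.trans ?_
  norm_num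
  linarith

lemma F_rec {a : ℕ → ℝ} {α : ℝ} (h : Bd a α) (z : ℂ) :
    F a z = a 0 • Ψ z + (1 / 8 : ℝ) • F (fun k => a (k + 1)) (T z) := by
  unfold F
  rw [(Summable.of_norm_bounded (geo α).summable (term_le h z)).tsum_eq_zero_add,
    ← tsum_const_smul'']
  simp only [pow_zero, mul_one, Function.iterate_zero, id_eq, Function.iterate_succ_apply,
    smul_smul]
  congr 2
  funext k
  congr 1
  ring

lemma F_out (a : ℕ → ℝ) (z : ℂ) (h : 2 ≤ ‖z‖) : F a z = 0 := by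
  have : ∀ k, 2 ≤ ‖T^[k] z‖ := fun k => by
    induction k with
    | zero => exact h
    | succ k ih => rw [Function.iterate_succ_apply']; exact T_out _ ih
  simp [F, Ψ_out _ (this _)]

lemma step {a : ℕ → ℝ} {α : ℝ} (h : Bd a α) (z w : ℂ) (hz : ‖z‖ ≤ 1) (hw : ‖w‖ ≤ 1) :
    F a z - F a w = a 0 • (z - w)
      + (1 / 8 : ℝ) • (F (fun k => a (k + 1)) (T z) - F (fun k => a (k + 1)) (T w)) := by
  rw [F_rec h z, F_rec h w, Ψ_in z hz, Ψ_in w hw, smul_sub, smul_sub]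
  abel

lemma far {L : ℝ} (hL : ∀ z w, ‖Ψ z - Ψ w‖ ≤ L * ‖z - w‖) {a : ℕ → ℝ} {α : ℝ} (h : Bd a α)
    (z w : ℂ) (hn : ¬(‖z‖ ≤ 1 ∧ ‖w‖ ≤ 1 ∧ (0 ≤ w.re ↔ 0 ≤ z.re))) :
    ‖F a z - F a w‖ ≤ (L + 3) * α * ‖z - w‖ := by
  have e : F a z - F a w = a 0 • (Ψ z - Ψ w)
      + (1 / 8 : ℝ) • (F (fun k => a (k + 1)) (T z) - F (fun k => a (k + 1)) (T w)) := by
    rw [F_rec h z, F_rec h w, smul_sub, smul_sub]
    abel
  have h0 := h.nn
  have h1 : ‖a 0 • (Ψ z - Ψ w)‖ ≤ α * (L * ‖z - w‖) := by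
    rw [norm_smul]
    exact mul_le_mul (h 0) (hL z w) (norm_nonneg _) h0
  have h2 : ‖F (fun k => a (k + 1)) (T z) - F (fun k => a (k + 1)) (T w)‖ ≤ 24 * α * ‖z - w‖ := by
    by_cases h3 : 1 / 4 ≤ ‖z - w‖
    · refine (norm_sub_le _ _).trans ?_
      nlinarith [F_le h.shift (T z), F_le h.shift (T w)]
    · rw [not_le] at h3
      have h4 : 2 ≤ ‖T z‖ := by
        by_contra h5
        have h6 := near z w (not_le.1 h5).le (by rwa [norm_sub_rev])
        exact hn ⟨(near z z (not_le.1 h5).le (by simp)).1, h6.1, h6.2⟩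
      have h5 : 2 ≤ ‖T w‖ := by
        by_contra h5
        have h6 := near w z (not_le.1 h5).le h3
        exact hn ⟨h6.1, (near w w (not_le.1 h5).le (by simp)).1, h6.2.symm⟩
      rw [F_out _ _ h4, F_out _ _ h5]
      simp
      positivity
  rw [e]
  refine (norm_add_le _ _).trans ?_
  rw [norm_smul (1 / 8 : ℝ), Real.norm_of_nonneg (by norm_num)]
  linarith

lemma key0 {L : ℝ} (hL : ∀ z w, ‖Ψ z - Ψ w‖ ≤ L * ‖z - w‖) {α : ℝ} (n : ℕ) :
    ∀ a, Bd a α → ∀ z w : ℂ, 2 < 8 ^ n * ‖z - w‖ → ∃ M,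
      ‖F a z - F a w - (∑ k ∈ Finset.range M, a k) • (z - w)‖ ≤ (L + 3) * α * ‖z - w‖ := by
  induction n with
  | zero =>
    intro a h z w hzw
    refine ⟨0, ?_⟩
    simpa using far hL h z w fun hn => by
      linarith [norm_sub_le z w, hn.1, hn.2.1]
  | succ n ih =>
    intro a h z w hzw
    by_cases hn : ‖z‖ ≤ 1 ∧ ‖w‖ ≤ 1 ∧ (0 ≤ w.re ↔ 0 ≤ z.re)
    · have e := T_sub z w hn.2.2
      have e2 : ‖T z - T w‖ = 8 * ‖z - w‖ := by rw [e]; simp
      obtain ⟨M, hM⟩ := ih _ h.shift (T z) (T w) (by rw [e2]; rw [pow_succ] at hzw; linarith)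
      refine ⟨M + 1, ?_⟩
      have e3 : F a z - F a w - (∑ k ∈ Finset.range (M + 1), a k) • (z - w)
          = (1 / 8 : ℝ) • (F (fun k => a (k + 1)) (T z) - F (fun k => a (k + 1)) (T w)
            - (∑ k ∈ Finset.range M, a (k + 1)) • (T z - T w)) := by
        rw [step h z w hn.1 hn.2.1, Finset.sum_range_succ', e]
        simp only [Complex.real_smul]
        push_cast
        ring
      rw [e3, norm_smul, Real.norm_of_nonneg (by norm_num)]
      rw [e2] at hM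
      linarith
    · exact ⟨0, by simpa using far hL h z w hn⟩

lemma key {L : ℝ} (hL : ∀ z w, ‖Ψ z - Ψ w‖ ≤ L * ‖z - w‖) {a : ℕ → ℝ} {α : ℝ} (h : Bd a α)
    (z w : ℂ) : ∃ M,
      ‖F a z - F a w - (∑ k ∈ Finset.range M, a k) • (z - w)‖ ≤ (L + 3) * α * ‖z - w‖ := by
  by_cases hzw : z = w
  · exact ⟨0, by simp [hzw]⟩
  · have h1 : 0 < ‖z - w‖ := norm_pos_iff.2 (sub_ne_zero.2 hzw)
    obtain ⟨n, hn⟩ := pow_unbounded_of_one_lt (2 / ‖z - w‖) (by norm_num : (1 : ℝ) < 8)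
    exact key0 hL n a h z w (by rwa [div_lt_iff₀ h1] at hn)

def K : Set ℂ := {p | ∀ n, ‖T^[n] p‖ ≤ 2}

lemma zoom {α : ℝ} (N : ℕ) : ∀ a, Bd a α → ∀ p ∈ K, ∀ z w : ℂ, 8 ^ N * ‖z - p‖ < 1 / 4 →
    8 ^ N * ‖w - p‖ < 1 / 4 → ∃ z' w' : ℂ, z' - w' = 8 ^ N * (z - w) ∧
      F a z - F a w = (∑ k ∈ Finset.range N, a k) • (z - w)
        + (1 / 8 : ℝ) ^ N • (F (fun k => a (k + N)) z' - F (fun k => a (k + N)) w') := by
  induction N with
  | zero =>
    intro a _ p _ z w _ _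
    exact ⟨z, w, by simp, by simp⟩
  | succ N ih =>
    intro a h p hp z w hz hw
    have h8 : (1 : ℝ) ≤ 8 ^ (N + 1) := one_le_pow₀ (by norm_num)
    have h1 := near p z (hp 1) (by nlinarith [norm_nonneg (z - p)])
    have h2 := near p w (hp 1) (by nlinarith [norm_nonneg (w - p)])
    have n8 : ∀ u : ℂ, ‖8 * u‖ = 8 * ‖u‖ := fun u => by simp
    obtain ⟨z', w', e1, e2⟩ := ih _ h.shift (T p) (fun n => hp (n + 1)) (T z) (T w)
      (by rw [T_sub z p h1.2.symm, n8]; rw [pow_succ] at hz; linarith)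
      (by rw [T_sub w p h2.2.symm, n8]; rw [pow_succ] at hw; linarith)
    have e := T_sub z w (h2.2.trans h1.2.symm)
    refine ⟨z', w', by rw [e1, e]; ring, ?_⟩
    rw [step h z w h1.1 h2.1, e2, Finset.sum_range_succ', e]
    simp only [Complex.real_smul, add_assoc]
    push_cast
    ring

lemma smooth_off {α : ℝ} (n : ℕ) : ∀ a, Bd a α → ∀ p : ℂ, 2 < ‖T^[n] p‖ →
    ContDiffAt ℝ 1 (F a) p := by
  induction n with
  | zero =>
    intro a _ p hp
    refine (contDiffAt_const (c := (0 : ℂ))).congr_of_eventuallyEq ?_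
    filter_upwards [(isOpen_lt continuous_const continuous_norm).mem_nhds hp] with z hz
    exact F_out a z (le_of_lt hz)
  | succ n ih =>
    intro a h p hp
    have h1 := ih _ h.shift (T p) hp
    have h2 : ContDiffAt ℝ 1 (fun z => F (fun k => a (k + 1)) (T z)) p := by
      rcases lt_trichotomy p.re 0 with h3 | h3 | h3
      · have e : T p = 8 * p + 4 := if_neg (not_le.2 h3)
        rw [e] at h1
        refine (h1.comp p (f := fun z => 8 * z + 4) (by fun_prop)).congr_of_eventuallyEq ?_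
        filter_upwards [(isOpen_lt Complex.continuous_re continuous_const).mem_nhds h3] with z hz
        simp only [Function.comp, T, if_neg (not_le.2 hz)]
      · refine (contDiffAt_const (c := (0 : ℂ))).congr_of_eventuallyEq ?_
        have : |p.re| < 1 / 4 := by rw [h3]; norm_num
        filter_upwards [(isOpen_lt (continuous_abs.comp Complex.continuous_re)
          continuous_const).mem_nhds this] with z hz
        apply F_out
        refine le_trans ?_ (Complex.abs_re_le_norm _)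
        have hz' : |z.re| < 1 / 4 := hz
        rw [abs_lt] at hz'
        unfold T
        split_ifs
        · simp only [Complex.sub_re, Complex.mul_re, Complex.re_ofNat, Complex.im_ofNat]
          rw [le_abs]
          right
          linarith
        · simp only [Complex.add_re, Complex.mul_re, Complex.re_ofNat, Complex.im_ofNat]
          rw [le_abs]
          left
          linarith
      · have e : T p = 8 * p - 4 := if_pos h3.le
        rw [e] at h1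
        refine (h1.comp p (f := fun z => 8 * z - 4) (by fun_prop)).congr_of_eventuallyEq ?_
        filter_upwards [(isOpen_lt continuous_const Complex.continuous_re).mem_nhds h3] with z hz
        simp only [Function.comp, T, if_pos (le_of_lt hz)]
    have e : F a = fun z => a 0 • Ψ z + (1 / 8 : ℝ) • F (fun k => a (k + 1)) (T z) :=
      funext (F_rec h)
    rw [e]
    exact (Ψ_cd.contDiffAt.const_smul _).add (h2.const_smul _)

noncomputable def pt (ε : ℕ → Bool) : ℝ := ∑' k, (if ε k then 1 / 2 else -1 / 2) * (1 / 8 : ℝ) ^ k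

lemma pt_term (ε : ℕ → Bool) (k : ℕ) :
    ‖(if ε k then 1 / 2 else -1 / 2) * (1 / 8 : ℝ) ^ k‖ ≤ 2 * (1 / 4) * (1 / 8) ^ k := by
  rw [norm_mul, norm_pow]
  split_ifs <;> norm_num

lemma pt_le (ε : ℕ → Bool) : |pt ε| ≤ 4 / 7 := by
  have := tsum_of_norm_bounded (geo (1 / 4)) (pt_term ε)
  refine this.trans ?_
  norm_num

lemma pt_rec (ε : ℕ → Bool) :
    pt ε = (if ε 0 then 1 / 2 else -1 / 2) + 1 / 8 * pt fun k => ε (k + 1) := by
  unfold pt
  rw [(Summable.of_norm_bounded (geo (1 / 4)).summable (pt_term ε)).tsum_eq_zero_add,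
    ← tsum_mul_left]
  simp only [pow_zero, mul_one]
  congr 2
  funext k
  ring

lemma pt_sign (ε : ℕ → Bool) : 0 ≤ pt ε ↔ ε 0 = true := by
  have h := abs_le.1 (pt_le fun k => ε (k + 1))
  rw [pt_rec]
  cases ε 0 <;> simp <;> linarith

lemma T_pt (ε : ℕ → Bool) : T (pt ε) = pt fun k => ε (k + 1) := by
  have h := pt_rec ε
  unfold T
  rw [Complex.ofReal_re]
  simp only [pt_sign]
  rw [h]
  cases ε 0 <;> simp <;> ring

lemma T_iter (n : ℕ) : ∀ ε : ℕ → Bool, T^[n] (pt ε) = pt fun k => ε (k + n) := by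
  induction n with
  | zero => intro ε; rfl
  | succ n ih => intro ε; rw [Function.iterate_succ_apply, T_pt, ih]; rfl

lemma K_unc : ¬K.Countable := by
  intro h
  have h1 : Function.Injective fun ε : ℕ → Bool => (pt ε : ℂ) := by
    intro ε η e
    funext n
    have e2 : T^[n] (pt ε) = T^[n] (pt η) := congrArg _ e
    rw [T_iter, T_iter, Complex.ofReal_inj] at e2
    have h2 := pt_sign fun k => ε (k + n)
    rw [e2, pt_sign] at h2
    simp only [zero_add] at h2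
    exact Bool.eq_iff_iff.2 h2.symm
  have h2 : Countable (ℕ → Bool) := by
    rw [← Set.countable_univ_iff]
    refine (h.preimage h1).mono fun ε _ => ?_
    intro n
    rw [T_iter, Complex.norm_real, Real.norm_eq_abs]
    linarith [pt_le fun k => ε (k + n)]
  obtain ⟨g, hg⟩ := exists_surjective_nat (ℕ → Bool)
  obtain ⟨n, hn⟩ := hg fun k => !g k k
  have := congrFun hn n
  simp at this

end Pool.Agent.H.MP_bd3523_gt
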