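import Mathlib
import Pool.Agent.H.MP_bd3523_gt.B

namespace Pool.Agent.H.MP_bd3523_gt

open Set Filter Topology Metric

noncomputable def S (d : ℝ) (n : ℕ) : ℝ := d * Real.cos (Real.pi * √n) - d

noncomputable def aa (d : ℝ) (k : ℕ) : ℝ := S d (k + 1) - S d k

lemma sum_aa (d : ℝ) (n : ℕ) : ∑ k ∈ Finset.range n, aa d k = S d n := by
  unfold aa
  rw [Finset.sum_range_sub]
  simp [S]

lemma sum_aa' (d : ℝ) (N M : ℕ) : S d N + ∑ k ∈ Finset.range M, aa d (k + N) = S d (N + M) := by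
  rw [← sum_aa, ← sum_aa, Finset.sum_range_add]
  simp only [add_comm]

lemma S_bd (d : ℝ) (hd : 0 ≤ d) (n : ℕ) : -(2 * d) ≤ S d n ∧ S d n ≤ 0 := by
  unfold S
  constructor <;> nlinarith [Real.neg_one_le_cos (Real.pi * √n), Real.cos_le_one (Real.pi * √n)]

lemma aa_le (d : ℝ) (hd : 0 ≤ d) (N k : ℕ) : |aa d (k + N)| ≤ 4 * d / √(N + 1) := by
  set n := k + N
  have h1 := Real.abs_cos_sub_cos_le (Real.pi * √((n + 1 : ℕ) : ℝ)) (Real.pi * √n)
  have e : aa d n = d * (Real.cos (Real.pi * √((n + 1 : ℕ) : ℝ)) - Real.cos (Real.pi * √n)) := by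
    unfold aa S
    ring
  have h2 : 0 < √((N : ℝ) + 1) := Real.sqrt_pos.2 (by positivity)
  have h3 : √((N : ℝ) + 1) ≤ √((n + 1 : ℕ) : ℝ) := by
    apply Real.sqrt_le_sqrt
    simp only [n]
    push_cast
    linarith [(k.cast_nonneg : (0 : ℝ) ≤ k)]
  have h4 : √(n : ℝ) ≤ √((n + 1 : ℕ) : ℝ) := Real.sqrt_le_sqrt (by push_cast; linarith)
  have h5 : √((n + 1 : ℕ) : ℝ) ^ 2 = √(n : ℝ) ^ 2 + 1 := by
    rw [Real.sq_sqrt (by positivity), Real.sq_sqrt (by positivity)]
    push_cast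
    ring
  have h6 : (√((n + 1 : ℕ) : ℝ) - √(n : ℝ)) * √((N : ℝ) + 1) ≤ 1 := by
    nlinarith [Real.sqrt_nonneg (n : ℝ)]
  rw [← mul_sub, abs_mul, abs_of_pos Real.pi_pos, abs_of_nonneg (sub_nonneg.2 h4)] at h1
  rw [e, abs_mul, abs_of_nonneg hd, le_div_iff₀ h2, mul_assoc, mul_comm 4 d]
  refine mul_le_mul_of_nonneg_left ?_ hd
  refine (mul_le_mul_of_nonneg_right h1 h2.le).trans ?_
  rw [mul_assoc]
  nlinarith [Real.pi_le_four, Real.pi_pos]

lemma aa_bd (d : ℝ) (hd : 0 ≤ d) : Bd (aa d) (4 * d) := fun k => by simpa using aa_le d hd 0 k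

lemma aa_tail (d : ℝ) (hd : 0 ≤ d) (ε : ℝ) (hε : 0 < ε) :
    ∃ N₀ : ℕ, ∀ N ≥ N₀, Bd (fun k => aa d (k + N)) ε := by
  obtain ⟨N₀, h⟩ := exists_nat_ge ((4 * d / ε) ^ 2)
  refine ⟨N₀, fun N hN k => (aa_le d hd N k).trans ?_⟩
  have h2 : 0 < √((N : ℝ) + 1) := Real.sqrt_pos.2 (by positivity)
  have h3 : 4 * d / ε ≤ √((N : ℝ) + 1) := by
    apply Real.le_sqrt_of_sq_le
    have : (N₀ : ℝ) ≤ N := by exact_mod_cast hN
    linarith
  rw [div_le_iff₀ hε] at h3
  rw [div_le_iff₀ h2]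
  linarith

theorem main : ∃ f : ℂ ≃ₜ ℂ, Good f ∧ Good f.symm ∧ ∀ p ∈ K, ¬DifferentiableAt ℝ f p := by
  obtain ⟨L, L0, hL⟩ := Ψ_lip
  set d := 1 / (16 * (L + 3)) with hd
  have d0 : 0 < d := by positivity
  have d1 : (L + 3) * (4 * d) = 1 / 4 := by
    rw [hd]
    field_simp
    norm_num
  have d2 : d ≤ 1 / 16 := by nlinarith
  set g : ℂ → ℂ := fun z => z + F (aa d) z with hg
  have h1 : ∀ z w, ‖g z - g w - (z - w)‖ ≤ 1 / 2 * ‖z - w‖ := by
    intro z w
    obtain ⟨M, hM⟩ := key hL (aa_bd d d0.le) z w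
    rw [sum_aa, d1] at hM
    have e : g z - g w - (z - w)
        = (F (aa d) z - F (aa d) w - S d M • (z - w)) + S d M • (z - w) := by
      simp only [hg]
      abel
    have h2 := S_bd d d0.le M
    have h3 : ‖S d M • (z - w)‖ ≤ 1 / 8 * ‖z - w‖ := by
      rw [norm_smul]
      exact mul_le_mul_of_nonneg_right (abs_le.2 ⟨by linarith, by linarith⟩) (norm_nonneg _)
    rw [e]
    linarith [norm_add_le (F (aa d) z - F (aa d) w - S d M • (z - w)) (S d M • (z - w)),
      norm_nonneg (z - w)]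
  have hap : ApproximatesLinearOn g ((ContinuousLinearEquiv.refl ℝ ℂ : ℂ ≃L[ℝ] ℂ) : ℂ →L[ℝ] ℂ)
      univ (1 / 2) := by
    intro z _ w _
    simpa using h1 z w
  have hN : Subsingleton ℂ ∨ (1 / 2 : NNReal)
      < ‖((ContinuousLinearEquiv.refl ℝ ℂ).symm : ℂ →L[ℝ] ℂ)‖₊⁻¹ := by
    right
    simp
    norm_num
  let f := hap.toHomeomorph g hN
  have hf : (f : ℂ → ℂ) = g := rfl
  have h2 : ∀ z w, ‖z - w‖ ≤ 2 * ‖g z - g w‖ := by
    intro z w
    have h3 := norm_sub_norm_le (z - w) (g z - g w)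
    rw [norm_sub_rev (z - w)] at h3
    linarith [h1 z w]
  have hG : Good g := by
    intro p
    by_cases hp : p ∈ K
    · refine ⟨ContinuousLinearMap.id ℝ ℂ, fun _ _ h => h, fun ε hε => ?_⟩
      obtain ⟨N, hN⟩ := aa_tail d d0.le (ε / (L + 3)) (by positivity)
      refine ⟨1 / 4 / 8 ^ N, by positivity, fun z hz w hw => ?_⟩
      rw [mem_ball_iff_norm, lt_div_iff₀' (by positivity)] at hz hw
      obtain ⟨z', w', e1, e2⟩ := zoom N _ (aa_bd d d0.le) p hp z w hz hw
      obtain ⟨M, hM⟩ := key hL (hN N le_rfl) z' w'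
      have h3 := S_bd d d0.le (N + M)
      refine ⟨1 + S d (N + M), by linarith, by linarith, ?_⟩
      have e3 : g z - g w - (1 + S d (N + M)) • (ContinuousLinearMap.id ℝ ℂ) (z - w)
          = (1 / 8 : ℝ) ^ N • (F (fun k => aa d (k + N)) z' - F (fun k => aa d (k + N)) w'
            - (∑ k ∈ Finset.range M, aa d (k + N)) • (z' - w')) := by
        have e4 : g z - g w = (z - w) + (F (aa d) z - F (aa d) w) := by
          simp only [hg]
          abel
        have e5 : ((1 / 8 : ℂ)) ^ N * 8 ^ N = 1 := by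
          rw [← mul_pow]
          norm_num
        rw [e4, e2, e1, sum_aa, ← sum_aa']
        simp only [Complex.real_smul, ContinuousLinearMap.id_apply]
        push_cast
        linear_combination (∑ k ∈ Finset.range M, (aa d (k + N) : ℂ)) * (z - w) * e5
      have e6 : ‖z' - w'‖ = 8 ^ N * ‖z - w‖ := by rw [e1]; simp
      have e7 : (1 / 8 : ℝ) ^ N * ((L + 3) * (ε / (L + 3)) * (8 ^ N * ‖z - w‖)) = ε * ‖z - w‖ := by
        rw [one_div, inv_pow]
        field_simp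
      rw [e3, norm_smul, Real.norm_of_nonneg (by positivity), ← e7, ← e6]
      exact mul_le_mul_of_nonneg_left hM (by positivity)
    · obtain ⟨n, hn⟩ := not_forall.1 hp
      have h3 : ContDiffAt ℝ 1 g p :=
        contDiffAt_id.add (smooth_off n _ (aa_bd d d0.le) p (not_le.1 hn))
      have h4 := h3.hasStrictFDerivAt (by simp)
      rw [hasStrictFDerivAt_iff_isLittleO, Asymptotics.isLittleO_iff] at h4
      have h5 : ∀ ε > 0, ∃ δ > 0, ∀ z ∈ ball p δ, ∀ w ∈ ball p δ,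
          ‖g z - g w - fderiv ℝ g p (z - w)‖ ≤ ε * ‖z - w‖ := by
        intro ε hε
        obtain ⟨δ, hδ, h6⟩ := Metric.eventually_nhds_iff_ball.1 (h4 hε)
        exact ⟨δ, hδ, fun z hz w hw => h6 (z, w) (by rw [← ball_prod_same]; exact ⟨hz, hw⟩)⟩
      refine ⟨fderiv ℝ g p, ?_, fun ε hε => ?_⟩
      · rw [injective_iff_map_eq_zero]
        intro v hv
        by_contra h0
        have hv0 : 0 < ‖v‖ := norm_pos_iff.2 h0
        obtain ⟨δ, hδ, h6⟩ := h5 (1 / 4) (by norm_num)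
        have e : ‖(δ / (2 * ‖v‖)) • v‖ = δ / 2 := by
          rw [norm_smul, Real.norm_of_nonneg (by positivity)]
          field_simp
        have h7 := h6 (p + (δ / (2 * ‖v‖)) • v)
          (by rw [mem_ball_iff_norm, add_sub_cancel_left, e]; linarith) p (mem_ball_self hδ)
        have h8 := h2 (p + (δ / (2 * ‖v‖)) • v) p
        rw [add_sub_cancel_left, map_smul, hv, smul_zero, sub_zero, e] at h7
        rw [add_sub_cancel_left, e] at h8
        linarith
      · obtain ⟨δ, hδ, h6⟩ := h5 ε hε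
        exact ⟨δ, hδ, fun z hz w hw => ⟨1, by norm_num, by norm_num, by
          rw [one_smul]; exact h6 z hz w hw⟩⟩
  refine ⟨f, hG, good_symm f hG h2, fun p hp hD => ?_⟩
  rw [hf] at hD
  have h3 := hD.hasFDerivAt
  rw [hasFDerivAt_iff_isLittleO_nhds_zero, Asymptotics.isLittleO_iff] at h3
  obtain ⟨δ, hδ, h4⟩ := Metric.eventually_nhds_iff_ball.1 (h3 (by positivity : 0 < d / 4))
  obtain ⟨N₁, hN₁⟩ := aa_tail d d0.le (d / 200) (by positivity)
  obtain ⟨N₂, hN₂⟩ := exists_pow_lt_of_lt_one hδ (by norm_num : (1 / 8 : ℝ) < 1)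
  have h5 : ∀ N ≥ N₁ + N₂, ‖((1 + S d N : ℝ) : ℂ) - fderiv ℝ g p 1‖ ≤ d / 2 := by
    intro N hN
    set h : ℝ := (1 / 8) ^ N / 8 with hh
    have h0 : 0 < h := by positivity
    have nh : ‖(h : ℂ)‖ = h := by rw [Complex.norm_real, Real.norm_of_nonneg h0.le]
    have h6 : (1 / 8 : ℝ) ^ N ≤ (1 / 8) ^ N₂ :=
      pow_le_pow_of_le_one (by norm_num) (by norm_num) (by omega)
    have h7 := h4 (h : ℂ) (by rw [mem_ball_zero_iff, nh]; linarith)
    have e5 : (8 : ℝ) ^ N * h = 1 / 8 := by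
      rw [hh, one_div, inv_pow]
      field_simp
    obtain ⟨z', w', -, e2⟩ := zoom N _ (aa_bd d d0.le) p hp (p + h) p
      (by rw [add_sub_cancel_left, nh, e5]; norm_num) (by simp)
    have hb := hN₁ N (by omega)
    have h8 : ‖F (fun k => aa d (k + N)) z' - F (fun k => aa d (k + N)) w'‖ ≤ 6 * (d / 200) := by
      linarith [norm_sub_le (F (fun k => aa d (k + N)) z') (F (fun k => aa d (k + N)) w'),
        F_le hb z', F_le hb w']
    have e3 : fderiv ℝ g p h = h • fderiv ℝ g p 1 := by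
      rw [← map_smul]
      simp
    have e4 : h • (((1 + S d N : ℝ) : ℂ) - fderiv ℝ g p 1)
        = (g (p + h) - g p - fderiv ℝ g p h)
          - (8 * h) • (F (fun k => aa d (k + N)) z' - F (fun k => aa d (k + N)) w') := by
      have e6 : g (p + h) - g p = h + (F (aa d) (p + h) - F (aa d) p) := by
        simp only [hg]
        abel
      have e7 : (1 / 8 : ℝ) ^ N = 8 * h := by rw [hh]; ring
      rw [e6, e2, e3, sum_aa, e7, add_sub_cancel_left]
      simp only [Complex.real_smul]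
      push_cast
      ring
    have h9 := norm_sub_le (g (p + h) - g p - fderiv ℝ g p h)
      ((8 * h) • (F (fun k => aa d (k + N)) z' - F (fun k => aa d (k + N)) w'))
    rw [← e4, norm_smul, norm_smul, Real.norm_of_nonneg h0.le,
      Real.norm_of_nonneg (by positivity)] at h9
    rw [nh] at h7
    have h10 := mul_le_mul_of_nonneg_left h8 (by positivity : 0 ≤ 8 * h)
    refine le_of_mul_le_mul_left ?_ h0
    nlinarith
  set m := N₁ + N₂
  have s1 : S d ((2 * m) ^ 2) = 0 := by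
    unfold S
    push_cast
    rw [Real.sqrt_sq (by positivity), show Real.pi * (2 * (m : ℝ)) = m * (2 * Real.pi) by ring,
      Real.cos_nat_mul_two_pi]
    ring
  have s2 : S d ((2 * m + 1) ^ 2) = -(2 * d) := by
    unfold S
    push_cast
    rw [Real.sqrt_sq (by positivity),
      show Real.pi * (2 * (m : ℝ) + 1) = m * (2 * Real.pi) + Real.pi by ring,
      Real.cos_nat_mul_two_pi_add_pi]
    ring
  have h6 := h5 ((2 * m) ^ 2) (by nlinarith)
  have h7 := h5 ((2 * m + 1) ^ 2) (by nlinarith)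
  rw [s1] at h6
  rw [s2] at h7
  have h8 := norm_sub_le (((1 + 0 : ℝ) : ℂ) - fderiv ℝ g p 1)
    (((1 + -(2 * d) : ℝ) : ℂ) - fderiv ℝ g p 1)
  rw [sub_sub_sub_cancel_right, ← Complex.ofReal_sub, Complex.norm_real,
    Real.norm_of_nonneg (by linarith)] at h8
  have h9 := h8.trans (add_le_add h6 h7)
  linarith

end Pool.Agent.H.MP_bd3523_gt
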